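import Mathlib
import Pool.Agent.Q11.DMod
import Pool.Agent.Q11.DModF

set_option autoImplicit false

namespace Pool.Agent.Results.MP_66748c_al.NonHolonomicExtension

open Q11.DMod

universe u

/-- For every prime `p` and every field `k` of characteristic `p` there is, for `n = 1`, a
`𝒟`-module `M` that is not holonomic although it has a submodule `N` such that `N` and `M / N` are
both holonomic. -/
theorem result (p : ℕ) [Fact p.Prime] (k : Type u) [Field k] [CharP k p] :
    ∃ (M : Type u) (_ : AddCommGroup M) (_ : Module k M) (_ : Module (DiffOps k) M)
      (_ : IsScalarTower k (DiffOps k) M) (N : Submodule (DiffOps k) M),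
      IsHolonomic k N ∧ IsHolonomic k (M ⧸ N) ∧ ¬ IsHolonomic k M :=
  ⟨M k p (fun s => 4 * s + 5), inferInstance, inferInstance, inferInstance, inferInstance,
    N k p (fun s => 4 * s + 5), holonomic_N, holonomic_quot (fun s => by omega), not_holonomic⟩

end Pool.Agent.Results.MP_66748c_al.NonHolonomicExtension
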